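import Pool.Agent.Y674.TR.Stm

/-!
# Project TR, job SZ: the size of the roots (helper739)
-/

set_option autoImplicit false

namespace Pool.Agent.Y739.TR

open Polynomial NumberField Pool.Agent.Y674.TR

theorem ev_eq (f : ℤ[X]) (s : ℂ) {n : ℕ} (hn : f.natDegree < n) :
    ev f s = ∑ i ∈ Finset.range n, (f.coeff i : ℂ) * s ^ i := by
  unfold ev
  rw [eval_eq_sum_range' (lt_of_le_of_lt natDegree_map_le hn)]
  refine Finset.sum_congr rfl fun i _ => ?_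
  rw [coeff_map]
  rfl

theorem low (f : ℤ[X]) (H : ℕ) (hc : ∀ i, |f.coeff i| ≤ (H : ℤ)) (s : ℂ) (m : ℕ) :
    ‖∑ i ∈ Finset.range m, (f.coeff i : ℂ) * s ^ i‖ ≤ ∑ i ∈ Finset.range m, (H : ℝ) * ‖s‖ ^ i := by
  refine norm_sum_le_of_le _ fun i _ => ?_
  rw [norm_mul, norm_pow, Complex.norm_intCast]
  have h1 : |((f.coeff i : ℤ) : ℝ)| ≤ (H : ℝ) := by exact_mod_cast hc i
  exact mul_le_mul_of_nonneg_right h1 (by positivity)

theorem geo {H R : ℝ} (hH : 1 ≤ H) (hR : 4 * H ≤ R) (m : ℕ) :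
    ∑ i ∈ Finset.range m, H * R ^ i ≤ R ^ m / 3 := by
  induction m with
  | zero => simp
  | succ m ih =>
    rw [Finset.sum_range_succ, pow_succ]
    have h4 : 4 ≤ R := by linarith
    have h0 : 0 ≤ R ^ m := by positivity
    have h1 : H * R ^ m ≤ R / 4 * R ^ m := mul_le_mul_of_nonneg_right (by linarith) h0
    have h2 : R ^ m * 4 ≤ R ^ m * R := mul_le_mul_of_nonneg_left h4 h0
    linarith

theorem sz : SZ := by
  intro e he φ ψ H hD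
  have hH : (1 : ℝ) ≤ H := by exact_mod_cast hD.one
  have hout : ∀ s : ℂ, 4 * (H : ℝ) ≤ ‖s‖ → ‖s‖ ^ e / 2 ≤ ‖ev ψ s‖ ∧ ‖ev ψ s‖ ≤ 2 * H * ‖s‖ ^ e ∧
      ‖s‖ ^ (2 * e + 1) / 2 ≤ ‖ev φ s‖ ∧ ‖ev φ s‖ ≤ 3 / 2 * ‖s‖ ^ (2 * e + 1) := by
    intro s hs
    have hψ0 : ψ ≠ 0 := by
      rintro rfl
      have := hD.sep
      rw [Polynomial.map_zero] at this
      exact this.ne_zero rfl
    have ha0 : ψ.coeff e ≠ 0 := by
      have h1 := leadingCoeff_ne_zero.2 hψ0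
      rwa [leadingCoeff, hD.degψ] at h1
    have ha1 : (1 : ℝ) ≤ |((ψ.coeff e : ℤ) : ℝ)| := by
      exact_mod_cast Int.one_le_abs ha0
    have ha2 : |((ψ.coeff e : ℤ) : ℝ)| ≤ (H : ℝ) := by exact_mod_cast hD.cψ e
    have e1 : ev ψ s = (∑ i ∈ Finset.range e, (ψ.coeff i : ℂ) * s ^ i) + (ψ.coeff e : ℂ) * s ^ e := by
      rw [ev_eq ψ s (n := e + 1) (by rw [hD.degψ]; omega), Finset.sum_range_succ]
    have l1 := (low ψ H hD.cψ s e).trans (geo hH hs e)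
    have e2 : ev φ s = (∑ i ∈ Finset.range (2 * e + 1), (φ.coeff i : ℂ) * s ^ i) +
        s ^ (2 * e + 1) := by
      rw [ev_eq φ s (n := 2 * e + 1 + 1) (by rw [hD.deg]; omega), Finset.sum_range_succ]
      have h1 : φ.coeff (2 * e + 1) = 1 := by
        have := hD.mon.coeff_natDegree
        rwa [hD.deg] at this
      rw [h1, Int.cast_one, one_mul]
    have l2 := (low φ H hD.cφ s (2 * e + 1)).trans (geo hH hs (2 * e + 1))
    have n1 : ‖(ψ.coeff e : ℂ) * s ^ e‖ = |((ψ.coeff e : ℤ) : ℝ)| * ‖s‖ ^ e := by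
      rw [norm_mul, norm_pow, Complex.norm_intCast]
    have n2 : ‖s ^ (2 * e + 1)‖ = ‖s‖ ^ (2 * e + 1) := norm_pow _ _
    have hp1 : 0 ≤ ‖s‖ ^ e := by positivity
    have hp2 : 0 ≤ ‖s‖ ^ (2 * e + 1) := by positivity
    have m1 : 1 * ‖s‖ ^ e ≤ |((ψ.coeff e : ℤ) : ℝ)| * ‖s‖ ^ e :=
      mul_le_mul_of_nonneg_right ha1 hp1
    have m2 : |((ψ.coeff e : ℤ) : ℝ)| * ‖s‖ ^ e ≤ H * ‖s‖ ^ e :=
      mul_le_mul_of_nonneg_right ha2 hp1
    have m3 : 1 * ‖s‖ ^ e ≤ H * ‖s‖ ^ e := mul_le_mul_of_nonneg_right hH hp1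
    refine ⟨?_, ?_, ?_, ?_⟩
    · have h1 : ‖(ψ.coeff e : ℂ) * s ^ e‖ ≤ ‖ev ψ s‖ +
          ‖∑ i ∈ Finset.range e, (ψ.coeff i : ℂ) * s ^ i‖ := by
        have : (ψ.coeff e : ℂ) * s ^ e = ev ψ s - ∑ i ∈ Finset.range e, (ψ.coeff i : ℂ) * s ^ i := by
          rw [e1]; ring
        rw [this]
        exact norm_sub_le _ _
      rw [n1] at h1
      linarith
    · rw [e1]
      have h1 := norm_add_le (∑ i ∈ Finset.range e, (ψ.coeff i : ℂ) * s ^ i) ((ψ.coeff e : ℂ) * s ^ e)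
      rw [n1] at h1
      have h2 : 2 * (H : ℝ) * ‖s‖ ^ e = 2 * (H * ‖s‖ ^ e) := by ring
      rw [h2]
      linarith
    · have h1 : ‖s ^ (2 * e + 1)‖ ≤ ‖ev φ s‖ +
          ‖∑ i ∈ Finset.range (2 * e + 1), (φ.coeff i : ℂ) * s ^ i‖ := by
        have : s ^ (2 * e + 1) = ev φ s -
            ∑ i ∈ Finset.range (2 * e + 1), (φ.coeff i : ℂ) * s ^ i := by
          rw [e2]; ring
        rw [this]
        exact norm_sub_le _ _
      rw [n2] at h1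
      linarith
    · rw [e2]
      have h1 := norm_add_le (∑ i ∈ Finset.range (2 * e + 1), (φ.coeff i : ℂ) * s ^ i)
        (s ^ (2 * e + 1))
      rw [n2] at h1
      linarith
  refine ⟨hout, fun x s hx => ?_⟩
  have hx1 : ev φ s = (x : ℂ) * ev ψ s ^ 2 := by
    unfold ev F at hx
    simp only [Polynomial.map_sub, Polynomial.map_mul, Polynomial.map_pow, map_C, eval_sub,
      eval_mul, eval_pow, eval_C] at hx
    exact sub_eq_zero.1 hx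
  have hx2 : ‖ev φ s‖ = |(x : ℝ)| * ‖ev ψ s‖ ^ 2 := by
    rw [hx1, norm_mul, norm_pow, Complex.norm_intCast]
  rcases lt_or_ge ‖s‖ (4 * (H : ℝ)) with hs | hs
  · left
    refine ⟨hs, ?_⟩
    rw [mul_comm, ← hx2, ev_eq φ s (n := 2 * e + 2) (by rw [hD.deg]; omega)]
    refine (low φ H hD.cφ s (2 * e + 2)).trans ?_
    have h1 : ∀ i ∈ Finset.range (2 * e + 2), (H : ℝ) * ‖s‖ ^ i ≤ H * (4 * H : ℝ) ^ (2 * e + 1) := by
      intro i hi
      rw [Finset.mem_range] at hi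
      refine mul_le_mul_of_nonneg_left ?_ (by positivity)
      calc ‖s‖ ^ i ≤ (4 * H : ℝ) ^ i := pow_le_pow_left₀ (norm_nonneg _) hs.le i
        _ ≤ (4 * H : ℝ) ^ (2 * e + 1) := pow_le_pow_right₀ (by linarith) (by omega)
    refine (Finset.sum_le_sum h1).trans ?_
    rw [Finset.sum_const, Finset.card_range, nsmul_eq_mul]
    push_cast
    apply le_of_eq
    ring
  · right
    obtain ⟨k1, k2, k3, k4⟩ := hout s hs
    have hs0 : 0 < ‖s‖ := by linarith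
    have hp : 0 < ‖s‖ ^ e * ‖s‖ ^ e := by positivity
    have hpe : ‖s‖ ^ (2 * e + 1) = ‖s‖ ^ e * ‖s‖ ^ e * ‖s‖ := by ring
    refine ⟨hs, ?_, ?_⟩
    · have h1 : |(x : ℝ)| * (‖s‖ ^ e / 2) ^ 2 ≤ 3 / 2 * ‖s‖ ^ (2 * e + 1) := by
        refine le_trans ?_ k4
        rw [hx2]
        exact mul_le_mul_of_nonneg_left (pow_le_pow_left₀ (by positivity) k1 2) (abs_nonneg _)
      rw [hpe] at h1
      have h2 : ‖s‖ ^ e * ‖s‖ ^ e * |(x : ℝ)| ≤ ‖s‖ ^ e * ‖s‖ ^ e * (6 * ‖s‖) := by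
        have e3 : |(x : ℝ)| * (‖s‖ ^ e / 2) ^ 2 = ‖s‖ ^ e * ‖s‖ ^ e * |(x : ℝ)| / 4 := by ring
        rw [e3] at h1
        linarith
      exact le_of_mul_le_mul_left h2 hp
    · have h1 : ‖s‖ ^ (2 * e + 1) / 2 ≤ |(x : ℝ)| * (2 * H * ‖s‖ ^ e) ^ 2 := by
        refine k3.trans ?_
        rw [hx2]
        exact mul_le_mul_of_nonneg_left (pow_le_pow_left₀ (norm_nonneg _) k2 2) (abs_nonneg _)
      rw [hpe] at h1
      have h2 : ‖s‖ ^ e * ‖s‖ ^ e * ‖s‖ ≤ ‖s‖ ^ e * ‖s‖ ^ e * (8 * (H : ℝ) ^ 2 * |(x : ℝ)|) := by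
        have e3 : |(x : ℝ)| * (2 * H * ‖s‖ ^ e) ^ 2 =
            ‖s‖ ^ e * ‖s‖ ^ e * (8 * (H : ℝ) ^ 2 * |(x : ℝ)|) / 2 := by ring
        rw [e3] at h1
        linarith
      exact le_of_mul_le_mul_left h2 hp

end Pool.Agent.Y739.TR
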